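import Pool.Agent.T9h7.RD.Pot

/-!
The strategy: f lazy steps, then verification with bisection.
-/

set_option autoImplicit false

namespace Pool.Agent.T9h7.RD

variable {n : ℕ}

/-- every clause of the configuration of the second gap is satisfied, or in the configuration of the
first one, or leads to a good restart -/
def Lk (M : ℕ → Finset (Finset (Fin n × Bool))) (T h : ℕ) (ε : ℝ) (r : Finset (Fin n × Bool))
    (σ σ' : St n) : Prop :=
  ∀ C ∈ M σ'.a, Sat r C ∨ C ∈ M σ.a ∨
    ∃ t, C ∈ M t ∧ Inv M T h ε ⟨σ.a, t, σ.nA, σ.nI, σ.nB + 1, σ.z⟩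

structure Chain (M : ℕ → Finset (Finset (Fin n × Bool))) (T h : ℕ) (ε : ℝ)
    (r : Finset (Fin n × Bool)) (c : ℕ → St n) (g : ℕ) : Prop where
  inv : ∀ i ≤ g, Inv M T h ε (c i)
  lk : ∀ i < g, Lk M T h ε r (c i) (c (i + 1))
  cA : ∀ i ≤ g, (c i).nA + (c i).nI = (c 0).nA + (c 0).nI + i
  cB : ∀ i ≤ g, (c i).nB = (c 0).nB

theorem Chain.mono {M : ℕ → Finset (Finset (Fin n × Bool))} {T h : ℕ} {ε : ℝ}
    {r r' : Finset (Fin n × Bool)} {c : ℕ → St n} {g : ℕ} (hc : Chain M T h ε r c g)
    (hr : r ⊆ r') : Chain M T h ε r' c g := by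
  refine ⟨hc.inv, ?_, hc.cA, hc.cB⟩
  intro i hi C hC
  rcases hc.lk i hi C hC with h | h
  · exact Or.inl (h.mono hr)
  · exact Or.inr h

theorem Chain.append {M : ℕ → Finset (Finset (Fin n × Bool))} {T h : ℕ} {ε : ℝ}
    {r : Finset (Fin n × Bool)} {c : ℕ → St n} {g : ℕ} (hc : Chain M T h ε r c g) (σ : St n)
    (h1 : Inv M T h ε σ) (h2 : Lk M T h ε r (c g) σ)
    (h3 : σ.nA + σ.nI = (c g).nA + (c g).nI + 1) (h4 : σ.nB = (c g).nB) :
    Chain M T h ε r (fun i => if i ≤ g then c i else σ) (g + 1) := by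
  constructor
  · intro i hi
    by_cases h : i ≤ g
    · simp only [h, if_true]; exact hc.inv i h
    · simp only [h, if_false]; exact h1
  · intro i hi
    by_cases h : i + 1 ≤ g
    · have h' : i ≤ g := by omega
      simp only [h, h', if_true]
      exact hc.lk i h
    · have h' : i = g := by omega
      subst h'
      have h5 : ¬ (i + 1 ≤ i) := by omega
      simp only [le_refl, h5, if_true, if_false]
      exact h2
  · intro i hi
    by_cases h : i ≤ g
    · simp only [h, if_true, Nat.zero_le]; exact hc.cA i h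
    · have h' : i = g + 1 := by omega
      subst h'
      simp only [h, if_false, Nat.zero_le, if_true]
      rw [h3, hc.cA g (le_refl _)]
      ring
  · intro i hi
    by_cases h : i ≤ g
    · simp only [h, if_true, Nat.zero_le]; exact hc.cB i h
    · simp only [h, if_false, Nat.zero_le, if_true]
      rw [h4, hc.cB g (le_refl _)]

theorem not_good {M : ℕ → Finset (Finset (Fin n × Bool))} {r : Finset (Fin n × Bool)} {a : ℕ}
    (hdec : ∀ C ∈ M a, Sat r C ∨ C ⊆ r) (h : ¬ Good M r a) : Bad M r a := by
  unfold Good at h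
  push Not at h
  obtain ⟨C, hC, hns⟩ := h
  exact ⟨C, hC, (hdec C hC).resolve_left hns⟩

/-- f lazy steps -/
theorem lazy {F : Finset (Finset (Fin n × Bool))} {M : ℕ → Finset (Finset (Fin n × Bool))}
    {T h : ℕ} {ε : ℝ} (hh : 1 ≤ h) (he0 : 0 < ε) (he1 : ε ≤ 1)
    (hne : ∀ t, 0 < t → t < T → (M t).Nonempty) (σ0 : St n) (N : ℕ) :
    ∀ (j : ℕ) {d : ℕ} (g : ℕ) (c : ℕ → St n) (r : Finset (Fin n × Bool)), Cons r →
      Chain M T h ε r c g → c 0 = σ0 → Bad M r (c g).b → g + j = N →
      (∀ (g' : ℕ) (c' : ℕ → St n) (r' : Finset (Fin n × Bool)), Cons r' → r ⊆ r' →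
        Chain M T h ε r' c' g' → c' 0 = σ0 → Bad M r' (c' g').b →
        (g' = N ∨ (g' ≤ N ∧ (c' g').b = (c' g').a + 1)) → Win F d r') →
      Win F (d + 2 * h * j) r := by
  intro j
  induction j with
  | zero =>
    intro d g c r hr hc h0 hb hg H
    simpa using H g c r hr (subset_refl _) hc h0 hb (Or.inl (by omega))
  | succ j ih =>
    intro d g c r hr hc h0 hb hg H
    by_cases hL : (c g).b = (c g).a + 1
    · exact (H g c r hr (subset_refl _) hc h0 hb (Or.inr ⟨by omega, hL⟩)).mono (by omega)
    · have hinv := hc.inv g (le_refl _)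
      have hL2 : (c g).a + 2 ≤ (c g).b := by have := hinv.lt; omega
      obtain ⟨Ea, p, q, hap, hpq, hqb, hEa, hcp, hcq, hQ, hP, z', hI⟩ :=
        split hh he0 he1 hne (c g) hinv hL2
      -- the continuation with one more state
      have cont : ∀ (σ : St n) (r' : Finset (Fin n × Bool)), Cons r' → r ⊆ r' → Inv M T h ε σ →
          Lk M T h ε r' (c g) σ → σ.nA + σ.nI = (c g).nA + (c g).nI + 1 → σ.nB = (c g).nB →
          Bad M r' σ.b → Win F (d + 2 * h * j) r' := by
        intro σ r' h1 h2 h3 h4 h5 h6 h7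
        refine ih (g + 1) (fun i => if i ≤ g then c i else σ) r' h1
          ((hc.mono h2).append σ h3 h4 h5 h6) ?_ ?_ (by omega) ?_
        · simp only [Nat.zero_le, if_true]; exact h0
        · have : ¬ (g + 1 ≤ g) := by omega
          simp only [this, if_false]; exact h7
        · intro g' c' r'' k1 k2 k3 k4 k5 k6
          exact H g' c' r'' k1 (h2.trans k2) k3 k4 k5 k6
      -- the second half of the step
      have partP : ∀ r' : Finset (Fin n × Bool), Cons r' → r ⊆ r' → Bad M r' q →
          Win F (d + 2 * h * j + h) r' := by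
        intro r1 hr1 hrr1 hbq
        refine eval_clauses (M p \ Ea) h hcp r1 hr1 ?_
        intro r2 hr2 hrr2 hdec
        by_cases hall : ∀ C ∈ M p \ Ea, Sat r2 C
        · refine cont ⟨p, q, (c g).nA, (c g).nI + 1, (c g).nB, z'⟩ r2 hr2 (hrr1.trans hrr2) hI ?_
            ?_ rfl (hbq.mono hrr2)
          · intro C hC
            by_cases hCE : C ∈ Ea
            · exact Or.inr (Or.inr (hEa C hCE))
            · exact Or.inl (hall C (Finset.mem_sdiff.mpr ⟨hC, hCE⟩))
          · simp only; ring
        · push Not at hall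
          obtain ⟨C, hC, hns⟩ := hall
          have hCf := (hdec C hC).resolve_left hns
          refine cont ⟨(c g).a, p, (c g).nA + 1, (c g).nI, (c g).nB, (c g).z⟩ r2 hr2
            (hrr1.trans hrr2) hP ?_ ?_ rfl ⟨C, (Finset.mem_sdiff.mp hC).1, hCf⟩
          · intro C hC
            exact Or.inr (Or.inl hC)
          · simp only; ring
      have e : d + 2 * h * (j + 1) = d + 2 * h * j + h + h := by ring
      rw [e]
      by_cases hqb' : q < (c g).b
      · refine eval_clauses (M q \ Ea) h (hcq hqb') r hr ?_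
        intro r1 hr1 hrr1 hdec
        by_cases hall : ∀ C ∈ M q \ Ea, Sat r1 C
        · refine (cont ⟨q, (c g).b, (c g).nA + 1, (c g).nI, (c g).nB, (c g).z⟩ r1 hr1 hrr1 (hQ hqb')
            ?_ ?_ rfl (hb.mono hrr1)).mono (by omega)
          · intro C hC
            by_cases hCE : C ∈ Ea
            · exact Or.inr (Or.inr (hEa C hCE))
            · exact Or.inl (hall C (Finset.mem_sdiff.mpr ⟨hC, hCE⟩))
          · simp only; ring
        · push Not at hall
          obtain ⟨C, hC, hns⟩ := hall
          have hCf := (hdec C hC).resolve_left hns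
          exact partP r1 hr1 hrr1 ⟨C, (Finset.mem_sdiff.mp hC).1, hCf⟩
      · have hqe : q = (c g).b := by omega
        subst hqe
        exact (partP r hr (subset_refl _) hb).mono (by omega)

/-- bisection -/
theorem bisect {F : Finset (Finset (Fin n × Bool))} {M : ℕ → Finset (Finset (Fin n × Bool))}
    {s g d : ℕ} (c : ℕ → ℕ) (hs : ∀ i ≤ g, ∑ C ∈ M (c i), C.card ≤ s) :
    ∀ (k i j : ℕ) (r : Finset (Fin n × Bool)), Cons r → j ≤ i + 2 ^ k → i < j → j ≤ g →
      Good M r (c i) → Bad M r (c j) →
      (∀ (i : ℕ) (r' : Finset (Fin n × Bool)), Cons r' → r ⊆ r' → i < g → Good M r' (c i) →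
        Bad M r' (c (i + 1)) → Win F d r') →
      Win F (d + k * s) r := by
  intro k
  induction k with
  | zero =>
    intro i j r hr h1 h2 h3 hg hb H
    have : j = i + 1 := by simp at h1; omega
    subst this
    simpa using H i r hr (subset_refl _) (by omega) hg hb
  | succ k ih =>
    intro i j r hr h1 h2 h3 hg hb H
    have hpow : 2 ^ (k + 1) = 2 * 2 ^ k := by ring
    by_cases hij : j = i + 1
    · subst hij
      exact (H i r hr (subset_refl _) (by omega) hg hb).mono (by omega)
    · have e : d + (k + 1) * s = d + k * s + s := by ring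
      rw [e]
      refine eval_clauses (M (c (i + (j - i) / 2))) s (hs _ (by omega)) r hr ?_
      intro r' hr' hrr' hdec
      by_cases hgm : Good M r' (c (i + (j - i) / 2))
      · refine ih (i + (j - i) / 2) j r' hr' (by omega) (by omega) h3 hgm (hb.mono hrr') ?_
        intro i' r'' k1 k2 k3 k4 k5
        exact H i' r'' k1 (hrr'.trans k2) k3 k4 k5
      · refine ih i (i + (j - i) / 2) r' hr' (by omega) (by omega) (by omega) (hg.mono hrr')
          (not_good hdec hgm) ?_
        intro i' r'' k1 k2 k3 k4 k5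
        exact H i' r'' k1 (hrr'.trans k2) k3 k4 k5

/-- the game is won after at most (X/f + Y + 2) phases -/
theorem game {F : Finset (Finset (Fin n × Bool))} {M : ℕ → Finset (Finset (Fin n × Bool))}
    {T s h f k X Y : ℕ} {ε : ℝ} (hM : IsRef F T M) (hs : ∀ t ≤ T, ∑ C ∈ M t, C.card ≤ s)
    (hh : 1 ≤ h) (he0 : 0 < ε) (he1 : ε ≤ 1) (hne : ∀ t, 0 < t → t < T → (M t).Nonempty)
    (hf : 1 ≤ f) (hfk : f ≤ 2 ^ k)
    (hbd : ∀ σ : St n, Inv M T h ε σ → σ.a + 2 ≤ σ.b → σ.nA + σ.nI ≤ X ∧ σ.nB ≤ Y) :
    ∀ (N : ℕ) (r : Finset (Fin n × Bool)) (σ : St n), Cons r → Inv M T h ε σ → Good M r σ.a →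
      Bad M r σ.b → (X - (σ.nA + σ.nI)) / f + (Y - σ.nB) + 1 ≤ N →
      Win F (N * (2 * h * f + s * (k + 1))) r := by
  intro N
  induction N with
  | zero => intro r σ _ _ _ _ h; exact absurd h (Nat.not_succ_le_zero _)
  | succ N ih =>
    intro r σ hr hσ hg hb hN
    -- a verified state with smaller measure
    have next : ∀ (r' : Finset (Fin n × Bool)) (σ' : St n), Cons r' → Inv M T h ε σ' →
        Good M r' σ'.a → Bad M r' σ'.b →
        (σ'.a + 2 ≤ σ'.b → (X - (σ'.nA + σ'.nI)) / f + (Y - σ'.nB) + 1 ≤ N) →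
        Win F (N * (2 * h * f + s * (k + 1))) r' := by
      intro r' σ' h1 h2 h3 h4 h5
      by_cases hL : σ'.a + 2 ≤ σ'.b
      · exact ih r' σ' h1 h2 h3 h4 (h5 hL)
      · have hlt := h2.lt
        have e : σ'.b = σ'.a + 1 := by omega
        rw [e] at h4
        exact (leaf hM h1 (by have := h2.bT; omega) h3 h4).mono (Nat.zero_le _)
    by_cases hL0 : σ.a + 2 ≤ σ.b
    swap
    · have hlt := hσ.lt
      have e : σ.b = σ.a + 1 := by omega
      rw [e] at hb
      exact (leaf hM hr (by have := hσ.bT; omega) hg hb).mono (Nat.zero_le _)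
    have hstart : Chain M T h ε r (fun _ => σ) 0 := by
      refine ⟨fun i _ => hσ, fun i hi => absurd hi (Nat.not_lt_zero i), ?_, fun i _ => rfl⟩
      intro i hi
      have : i = 0 := by omega
      subst this
      rfl
    have key := lazy (F := F) hh he0 he1 hne σ f f (d := N * (2 * h * f + s * (k + 1)) + k * s + s)
      0 (fun _ => σ) r hr hstart rfl hb (by omega) ?_
    · refine key.mono ?_
      have : (N + 1) * (2 * h * f + s * (k + 1))
          = N * (2 * h * f + s * (k + 1)) + k * s + s + 2 * h * f := by ring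
      exact this.ge
    · intro g c r1 hr1 hrr1 hc hc0 hbc hend
      have hTg : ∀ i ≤ g, (c i).a ≤ T := by
        intro i hi
        have h1 := (hc.inv i hi).lt
        have h2 := (hc.inv i hi).bT
        omega
      have hgf : g ≤ f := by rcases hend with h | h <;> omega
      refine eval_clauses (M (c g).a) s (hs _ (hTg g (le_refl _))) r1 hr1 ?_
      intro r2 hr2 hrr2 hdec
      by_cases hgg : Good M r2 (c g).a
      · refine (next r2 (c g) hr2 (hc.inv g (le_refl _)) hgg (hbc.mono hrr2) ?_).mono (by omega)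
        intro hL
        have hgf' : g = f := by
          rcases hend with h | h
          · exact h
          · omega
        obtain ⟨b1, b2⟩ := hbd (c g) (hc.inv g (le_refl _)) hL
        have e1 := hc.cA g (le_refl _)
        have e2 := hc.cB g (le_refl _)
        rw [hc0] at e1 e2
        have e3 : (X - (σ.nA + σ.nI)) / f = (X - ((c g).nA + (c g).nI)) / f + 1 := by
          have : X - (σ.nA + σ.nI) = (X - ((c g).nA + (c g).nI)) + f := by omega
          rw [this, Nat.add_div_right _ (by omega)]
        rw [e3] at hN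
        rw [e2]
        generalize (X - ((c g).nA + (c g).nI)) / f = D at hN ⊢
        omega
      · have hbg := not_good hdec hgg
        have hg0 : Good M r2 (c 0).a := by rw [hc0]; exact hg.mono (hrr1.trans hrr2)
        have hgpos : 0 < g := by
          rcases Nat.eq_zero_or_pos g with h | h
          · subst h; exact absurd hg0 hgg
          · exact h
        refine bisect (g := g) (fun i => (c i).a) (fun i hi => hs _ (hTg i hi)) k 0 g r2 hr2
          (by omega) hgpos (le_refl _) hg0 hbg ?_
        intro i r3 hr3 hrr3 hig hgi hbi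
        obtain ⟨C, hC, hCf⟩ := hbi
        rcases hc.lk i hig C hC with hsat | hmem | ⟨t, hCt, hInv⟩
        · exact (not_sat_false hr3 (hsat.mono (hrr2.trans hrr3)) hCf).elim
        · exact (not_sat_false hr3 (hgi C hmem) hCf).elim
        · refine next r3 _ hr3 hInv hgi ⟨C, hCt, hCf⟩ ?_
          intro hL
          obtain ⟨b1, b2⟩ := hbd _ hInv hL
          have e1 := hc.cA i (by omega)
          have e2 := hc.cB i (by omega)
          rw [hc0] at e1 e2
          simp only at b1 b2 ⊢
          have e3 : (X - ((c i).nA + (c i).nI)) / f ≤ (X - (σ.nA + σ.nI)) / f :=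
            Nat.div_le_div_right (by omega)
          generalize (X - ((c i).nA + (c i).nI)) / f = D at e3 ⊢
          generalize (X - (σ.nA + σ.nI)) / f = D' at e3 hN
          omega

end Pool.Agent.T9h7.RD
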