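import Pool.Agent.T9h7.RD.Defs

/-!
Consequences of depth² ≤ K · space³ · width · log⁴.
-/

set_option autoImplicit false
open Filter

namespace Pool.Agent.T9h7.RD

/-- the main bound -/
def MainBound : Prop := ∃ K : ℕ, ∀ (n : ℕ) (F : Finset (Finset (Fin n × Bool)))
    (D s w τ : ℕ) (M : ℕ → Finset (Finset (Fin n × Bool))),
    IsLeast {d | HasDepth F d} D → IsRef F τ M →
    (∀ t ≤ τ, ∑ C ∈ M t, C.card ≤ s) → (∀ t ≤ τ, ∀ C ∈ M t, C.card ≤ w) →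
    (D : ℝ) ^ 2 ≤ (K : ℝ) * (s : ℝ) ^ 3 * (w : ℝ) * (Real.log ((n : ℝ) + 2)) ^ 4

theorem log_bound {K n : ℕ} (hn : 16 * (K : ℝ) ≤ Real.log n) (hn2 : 2 ≤ n) :
    (K : ℝ) * (Real.log ((n : ℝ) + 2)) ^ 4 ≤ (Real.log n) ^ 5 := by
  have h2 : (2 : ℝ) ≤ (n : ℝ) := by exact_mod_cast hn2
  have hl0 : 0 ≤ Real.log (n : ℝ) := Real.log_nonneg (by linarith)
  have h1 : Real.log ((n : ℝ) + 2) ≤ 2 * Real.log n := by
    have : (2 : ℝ) * Real.log n = Real.log ((n : ℝ) ^ 2) := by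
      rw [Real.log_pow]; norm_num
    rw [this]
    apply Real.log_le_log (by linarith)
    nlinarith
  have h0 : 0 ≤ Real.log ((n : ℝ) + 2) := Real.log_nonneg (by linarith)
  calc (K : ℝ) * (Real.log ((n : ℝ) + 2)) ^ 4 ≤ (K : ℝ) * (2 * Real.log n) ^ 4 :=
        mul_le_mul_of_nonneg_left (pow_le_pow_left₀ h0 h1 4) (Nat.cast_nonneg K)
    _ = (16 * (K : ℝ)) * (Real.log n) ^ 4 := by ring
    _ ≤ Real.log n * (Real.log n) ^ 4 := mul_le_mul_of_nonneg_right hn (by positivity)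
    _ = (Real.log n) ^ 5 := by ring

theorem log_two_mul {n : ℕ} (hn2 : 2 ≤ n) :
    Real.log ((n : ℝ) + 2) ≤ 2 * Real.log n := by
  have h2 : (2 : ℝ) ≤ (n : ℝ) := by exact_mod_cast hn2
  have : (2 : ℝ) * Real.log n = Real.log ((n : ℝ) ^ 2) := by
    rw [Real.log_pow]; norm_num
  rw [this]
  apply Real.log_le_log (by linarith)
  nlinarith

/-- from s ≤ sqrt D (log n)^c and the main bound -/
theorem step {K n D s w c : ℕ} (hs : 0 < s)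
    (hmain : (D : ℝ) ^ 2 ≤ (K : ℝ) * (s : ℝ) ^ 3 * (w : ℝ) * (Real.log ((n : ℝ) + 2)) ^ 4)
    (hn : 16 * (K : ℝ) ≤ Real.log n) (hn2 : 2 ≤ n)
    (hsD : (s : ℝ) ≤ Real.sqrt D * (Real.log n) ^ c) :
    (s : ℝ) ≤ (w : ℝ) * (Real.log n) ^ (4 * c + 5) := by
  have h2 : (2 : ℝ) ≤ (n : ℝ) := by exact_mod_cast hn2
  have hl0 : 0 ≤ Real.log (n : ℝ) := Real.log_nonneg (by linarith)
  have hs0 : (0 : ℝ) < (s : ℝ) := by exact_mod_cast hs
  have h4 : (s : ℝ) ^ 4 ≤ (D : ℝ) ^ 2 * (Real.log n) ^ (4 * c) := by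
    have h5 := pow_le_pow_left₀ hs0.le hsD 4
    refine h5.trans (le_of_eq ?_)
    have h6 : (Real.sqrt (D : ℝ)) ^ 2 = (D : ℝ) := Real.sq_sqrt (Nat.cast_nonneg D)
    calc (Real.sqrt (D : ℝ) * (Real.log n) ^ c) ^ 4
        = ((Real.sqrt (D : ℝ)) ^ 2) ^ 2 * ((Real.log n) ^ c) ^ 4 := by ring
      _ = (D : ℝ) ^ 2 * (Real.log n) ^ (4 * c) := by
          rw [h6, ← pow_mul, mul_comm c 4]
  have h7 : (s : ℝ) ^ 4 ≤ (s : ℝ) ^ 3 * ((w : ℝ) * (Real.log n) ^ (4 * c + 5)) := by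
    calc (s : ℝ) ^ 4 ≤ (D : ℝ) ^ 2 * (Real.log n) ^ (4 * c) := h4
      _ ≤ ((K : ℝ) * (s : ℝ) ^ 3 * (w : ℝ) * (Real.log ((n : ℝ) + 2)) ^ 4) *
          (Real.log n) ^ (4 * c) := mul_le_mul_of_nonneg_right hmain (by positivity)
      _ = (s : ℝ) ^ 3 * (w : ℝ) * (Real.log n) ^ (4 * c) *
          ((K : ℝ) * (Real.log ((n : ℝ) + 2)) ^ 4) := by ring
      _ ≤ (s : ℝ) ^ 3 * (w : ℝ) * (Real.log n) ^ (4 * c) * (Real.log n) ^ 5 :=
          mul_le_mul_of_nonneg_left (log_bound hn hn2) (by positivity)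
      _ = (s : ℝ) ^ 3 * ((w : ℝ) * (Real.log n) ^ (4 * c + 5)) := by ring
  have h8 : (s : ℝ) ^ 4 = (s : ℝ) ^ 3 * (s : ℝ) := by ring
  rw [h8] at h7
  exact le_of_mul_le_mul_left h7 (by positivity)

theorem exists_large (K : ℕ) : ∃ n0 : ℕ, ∀ n ≥ n0, 16 * (K : ℝ) ≤ Real.log n ∧ 2 ≤ n := by
  refine ⟨⌈Real.exp (16 * (K : ℝ))⌉₊ + 2, ?_⟩
  intro n hn
  refine ⟨?_, by omega⟩
  have h1 : Real.exp (16 * (K : ℝ)) ≤ (n : ℝ) := by
    refine (Nat.le_ceil _).trans ?_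
    exact_mod_cast (by omega : ⌈Real.exp (16 * (K : ℝ))⌉₊ ≤ n)
  have h2 : (0 : ℝ) < (n : ℝ) := lt_of_lt_of_le (Real.exp_pos _) h1
  exact (Real.le_log_iff_exp_le h2).mpr h1

/-- tight refutations have a clause which fills a polylogarithmic fraction of the memory -/
theorem wide_clause (hmain : MainBound) (c : ℕ) : ∃ n0 : ℕ, ∀ n ≥ n0,
    ∀ (F : Finset (Finset (Fin n × Bool))) (D τ : ℕ) (M : ℕ → Finset (Finset (Fin n × Bool))),
    IsLeast {d | HasDepth F d} D → IsRef F τ M →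
    (∀ t ≤ τ, ((∑ C ∈ M t, C.card : ℕ) : ℝ) ≤ Real.sqrt D * (Real.log n) ^ c) →
    ∃ t ≤ τ, ∃ C ∈ M t, ∀ u ≤ τ,
      ((∑ C' ∈ M u, C'.card : ℕ) : ℝ) ≤ (C.card : ℝ) * (Real.log n) ^ (4 * c + 5) := by
  obtain ⟨K, hK⟩ := hmain
  obtain ⟨n0, hn0⟩ := exists_large K
  refine ⟨n0, ?_⟩
  intro n hn F D τ M hD hM hsp
  obtain ⟨hn1, hn2⟩ := hn0 n hn
  -- the maximal total size
  obtain ⟨u0, hu0, hmax⟩ := Finset.exists_max_image (Finset.range (τ + 1))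
    (fun u => ∑ C ∈ M u, C.card) ⟨0, by simp⟩
  -- the widest clause
  obtain ⟨C0, hC0, hwide⟩ := Finset.exists_max_image ((Finset.range (τ + 1)).biUnion M)
    (fun C => C.card) ⟨∅, Finset.mem_biUnion.mpr ⟨τ, by simp, hM.2.1⟩⟩
  obtain ⟨t0, ht0, hC0t⟩ := Finset.mem_biUnion.mp hC0
  rw [Finset.mem_range] at hu0 ht0
  refine ⟨t0, by omega, C0, hC0t, ?_⟩
  have hs : ∀ t ≤ τ, ∑ C ∈ M t, C.card ≤ ∑ C ∈ M u0, C.card := fun t ht =>
    hmax t (Finset.mem_range.mpr (by omega))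
  have hw : ∀ t ≤ τ, ∀ C ∈ M t, C.card ≤ C0.card := fun t ht C hC =>
    hwide C (Finset.mem_biUnion.mpr ⟨t, Finset.mem_range.mpr (by omega), hC⟩)
  have hb := hK n F D _ _ τ M hD hM hs hw
  intro u hu
  have h1 : ((∑ C' ∈ M u, C'.card : ℕ) : ℝ) ≤ ((∑ C ∈ M u0, C.card : ℕ) : ℝ) := by
    exact_mod_cast hs u hu
  refine h1.trans ?_
  rcases Nat.eq_zero_or_pos (∑ C ∈ M u0, C.card) with h0 | hpos
  · rw [h0]
    have h2 : (2 : ℝ) ≤ (n : ℝ) := by exact_mod_cast hn2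
    have hl0 : 0 ≤ Real.log (n : ℝ) := Real.log_nonneg (by linarith)
    push_cast
    positivity
  · exact step hpos hb hn1 hn2 (hsp u0 (by omega))

/-- the negated form of the question for refutations of width at most space^(1-δ) -/
theorem narrow (hmain : MainBound) (F : (n : ℕ) → Finset (Finset (Fin n × Bool))) (D : ℕ → ℕ)
    (hD : ∀ n, IsLeast {d | HasDepth (F n) d} (D n))
    (hlarge : ∀ k : ℕ, Tendsto (fun n : ℕ => (D n : ℝ) / Real.log (n : ℝ) ^ k) atTop atTop)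
    (c : ℕ) (δ : ℝ) (hδ : 0 < δ) :
    ∀ᶠ n in atTop, ∀ (τ s : ℕ) (M : ℕ → Finset (Finset (Fin n × Bool))), IsRef (F n) τ M →
      (∀ t ≤ τ, ∑ C ∈ M t, C.card ≤ s) →
      (∀ t ≤ τ, ∀ C ∈ M t, (C.card : ℝ) ≤ (s : ℝ) ^ (1 - δ)) →
      Real.sqrt (D n : ℝ) * Real.log (n : ℝ) ^ c < (s : ℝ) := by
  obtain ⟨K, hK⟩ := hmain
  obtain ⟨n0, hn0⟩ := exists_large K
  obtain ⟨k, hk⟩ : ∃ k : ℕ, ((4 * c + 5 : ℕ) : ℝ) / δ ≤ (k : ℝ) := exists_nat_ge _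
  have hD1 := (hlarge (2 * k + 2)).eventually_gt_atTop (4 * (K : ℝ) + 1)
  have hlogev : ∀ᶠ n : ℕ in atTop, 1 ≤ Real.log (n : ℝ) :=
    (Real.tendsto_log_atTop.comp tendsto_natCast_atTop_atTop).eventually_ge_atTop 1
  filter_upwards [hD1, eventually_ge_atTop n0, hlogev] with n hDn hn hlog1
  obtain ⟨hn1, hn2⟩ := hn0 n hn
  intro τ s M hM hs hw
  by_contra hcon
  push Not at hcon
  -- the widest clause
  obtain ⟨C0, hC0, hwide⟩ := Finset.exists_max_image ((Finset.range (τ + 1)).biUnion M)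
    (fun C => C.card) ⟨∅, Finset.mem_biUnion.mpr ⟨τ, by simp, hM.2.1⟩⟩
  obtain ⟨t0, ht0, hC0t⟩ := Finset.mem_biUnion.mp hC0
  rw [Finset.mem_range] at ht0
  have hw0 : ∀ t ≤ τ, ∀ C ∈ M t, C.card ≤ C0.card := fun t ht C hC =>
    hwide C (Finset.mem_biUnion.mpr ⟨t, Finset.mem_range.mpr (by omega), hC⟩)
  have hC0s : (C0.card : ℝ) ≤ (s : ℝ) ^ (1 - δ) := hw t0 (by omega) C0 hC0t
  have hb := hK n (F n) (D n) s C0.card τ M (hD n) hM hs hw0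
  have hlogpos : 0 < Real.log (n : ℝ) := by linarith
  have hDpos : 4 * (K : ℝ) * Real.log (n : ℝ) ^ (2 * k + 2) < (D n : ℝ) := by
    rw [lt_div_iff₀ (by positivity)] at hDn
    have : 0 < Real.log (n : ℝ) ^ (2 * k + 2) := by positivity
    nlinarith
  have hK0 : (0 : ℝ) ≤ (K : ℝ) := Nat.cast_nonneg K
  have hD0 : (0 : ℝ) < (D n : ℝ) := by
    have : 0 ≤ 4 * (K : ℝ) * Real.log (n : ℝ) ^ (2 * k + 2) := by positivity
    linarith
  have hspos : 0 < s := by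
    rcases Nat.eq_zero_or_pos s with h | h
    · subst h
      exfalso
      have h1 : (D n : ℝ) ^ 2 ≤ 0 := by
        refine hb.trans ?_
        simp
      nlinarith
    · exact h
  have hs0 : (0 : ℝ) < (s : ℝ) := by exact_mod_cast hspos
  have h1 := step hspos hb hn1 hn2 hcon
  -- s ^ δ ≤ log ^ (4c+5)
  have h2 : (s : ℝ) ^ δ ≤ (Real.log n) ^ (4 * c + 5) := by
    have h3 : (s : ℝ) ≤ (s : ℝ) ^ (1 - δ) * (Real.log n) ^ (4 * c + 5) :=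
      h1.trans (mul_le_mul_of_nonneg_right hC0s (by positivity))
    have h4 : (s : ℝ) = (s : ℝ) ^ (1 - δ) * (s : ℝ) ^ δ := by
      rw [← Real.rpow_add hs0]
      norm_num
    have h5 : (s : ℝ) ^ (1 - δ) * (s : ℝ) ^ δ ≤ (s : ℝ) ^ (1 - δ) * (Real.log n) ^ (4 * c + 5) := by
      rw [← h4]; exact h3
    exact le_of_mul_le_mul_left h5 (Real.rpow_pos_of_pos hs0 _)
  have h6 : (s : ℝ) ≤ (Real.log n) ^ k := by
    have h7 : (s : ℝ) = ((s : ℝ) ^ δ) ^ (1 / δ) := by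
      rw [← Real.rpow_mul hs0.le, mul_one_div_cancel hδ.ne', Real.rpow_one]
    rw [h7]
    calc ((s : ℝ) ^ δ) ^ (1 / δ) ≤ ((Real.log n) ^ (4 * c + 5)) ^ (1 / δ) :=
          Real.rpow_le_rpow (Real.rpow_nonneg hs0.le _) h2 (by positivity)
      _ = (Real.log n) ^ (((4 * c + 5 : ℕ) : ℝ) / δ) := by
          rw [← Real.rpow_natCast, ← Real.rpow_mul hlogpos.le]
          congr 1
          ring
      _ ≤ (Real.log n) ^ (k : ℝ) := Real.rpow_le_rpow_of_exponent_le hlog1 hk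
      _ = (Real.log n) ^ k := Real.rpow_natCast _ _
  have h8 : (C0.card : ℝ) ≤ (s : ℝ) := by
    have : C0.card ≤ s := (Finset.single_le_sum (f := fun C : Finset (Fin n × Bool) => C.card)
        (fun _ _ => Nat.zero_le _) hC0t).trans (hs t0 (by omega))
    exact_mod_cast this
  have h9 := log_two_mul hn2
  have h2n : (2 : ℝ) ≤ (n : ℝ) := by exact_mod_cast hn2
  have hL0 : 0 ≤ Real.log ((n : ℝ) + 2) := Real.log_nonneg (by linarith)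
  have h10 : (D n : ℝ) ^ 2 ≤ (4 * (K : ℝ) * Real.log (n : ℝ) ^ (2 * k + 2)) ^ 2 := by
    calc (D n : ℝ) ^ 2
        ≤ (K : ℝ) * (s : ℝ) ^ 3 * (C0.card : ℝ) * (Real.log ((n : ℝ) + 2)) ^ 4 := hb
      _ ≤ (K : ℝ) * (s : ℝ) ^ 3 * (s : ℝ) * (2 * Real.log n) ^ 4 := by gcongr
      _ = 16 * (K : ℝ) * (s : ℝ) ^ 4 * (Real.log n) ^ 4 := by ring
      _ ≤ 16 * (K : ℝ) * ((Real.log n) ^ k) ^ 4 * (Real.log n) ^ 4 := by gcongr
      _ = 16 * (K : ℝ) * (Real.log n ^ (2 * k + 2)) ^ 2 := by ring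
      _ ≤ 16 * ((K : ℝ) ^ 2) * (Real.log n ^ (2 * k + 2)) ^ 2 := by
          have : (K : ℝ) ≤ (K : ℝ) ^ 2 := by
            have h : K ≤ K ^ 2 := Nat.le_self_pow (by norm_num) K
            exact_mod_cast h
          gcongr
      _ = (4 * (K : ℝ) * Real.log (n : ℝ) ^ (2 * k + 2)) ^ 2 := by ring
  have h11 : (D n : ℝ) ≤ 4 * (K : ℝ) * Real.log (n : ℝ) ^ (2 * k + 2) :=
    le_of_sq_le_sq h10 (by positivity)
  linarith

end Pool.Agent.T9h7.RD
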