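import Mathlib

/-!
Resolution over Fin n: a literal is a pair (v, b) (b = true: positive), a clause is a finite set of
literals, a CNF a finite set of clauses.
-/

set_option autoImplicit false

namespace Pool.Agent.T9h7.RD

/-- F has a resolution refutation of depth at most d (the set of the frozen statement S15209): S is
the set of derived clauses, r C bounds the length of the longest path from C to an input clause. -/
def HasDepth {n : ℕ} (F : Finset (Finset (Fin n × Bool))) (d : ℕ) : Prop :=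
  ∃ r : Finset (Fin n × Bool) → ℕ, ∃ S : Set (Finset (Fin n × Bool)),
    (∅ : Finset (Fin n × Bool)) ∈ S ∧
    ∀ C ∈ S, r C ≤ d ∧
      (C ∈ F ∨
        ∃ A ∈ S, ∃ B ∈ S, ∃ v : Fin n,
          (v, true) ∈ A ∧ (v, false) ∈ B ∧
          C = A.erase (v, true) ∪ B.erase (v, false) ∧
          r A < r C ∧ r B < r C)

/-- A space-aware refutation M 0, ..., M τ of F: configurations (sets of clauses), from the empty one
to one which contains the empty clause; each step adds a clause of F, adds a resolvent of two clauses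
of the configuration, or deletes clauses. -/
def IsRef {n : ℕ} (F : Finset (Finset (Fin n × Bool))) (τ : ℕ)
    (M : ℕ → Finset (Finset (Fin n × Bool))) : Prop :=
  M 0 = ∅ ∧ (∅ : Finset (Fin n × Bool)) ∈ M τ ∧
  ∀ t < τ,
    (∃ C ∈ F, M (t + 1) = insert C (M t)) ∨
    (∃ A ∈ M t, ∃ B ∈ M t, ∃ v : Fin n,
      (v, true) ∈ A ∧ (v, false) ∈ B ∧
      M (t + 1) = insert (A.erase (v, true) ∪ B.erase (v, false)) (M t)) ∨
    M (t + 1) ⊆ M t

/-- piece (CNT): the number of configurations of total size at most s without the empty clause -/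
def SCnt : Prop := ∀ (n s T : ℕ) (M : ℕ → Finset (Finset (Fin n × Bool))),
  (∀ i < T, ∀ j < T, M i = M j → i = j) → (∀ i < T, (∅ : Finset (Fin n × Bool)) ∉ M i) →
  (∀ i < T, ∑ C ∈ M i, C.card ≤ s) → T ≤ (2 * n * s + 1) ^ s

/-- piece (MIN): a shortest refutation has no repeated configurations and no empty clause before the
end -/
def SMin : Prop := ∀ (n : ℕ) (F : Finset (Finset (Fin n × Bool))) (s w τ : ℕ)
  (M : ℕ → Finset (Finset (Fin n × Bool))), IsRef F τ M →
  (∀ t ≤ τ, ∑ C ∈ M t, C.card ≤ s) → (∀ t ≤ τ, ∀ C ∈ M t, C.card ≤ w) →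
  ∃ T : ℕ, ∃ M' : ℕ → Finset (Finset (Fin n × Bool)), IsRef F T M' ∧
    (∀ t ≤ T, ∑ C ∈ M' t, C.card ≤ s) ∧ (∀ t ≤ T, ∀ C ∈ M' t, C.card ≤ w) ∧
    (∀ i ≤ T, ∀ j ≤ T, M' i = M' j → i = j) ∧ (∀ t < T, (∅ : Finset (Fin n × Bool)) ∉ M' t)

end Pool.Agent.T9h7.RD
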