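import Pool.Agent.T9h7.RD.Defs

/-!
Decision trees and resolution depth: Win F d r means that from the partial assignment which
falsifies the literals of r, a clause inside r has a derivation of depth at most d.
-/

set_option autoImplicit false

namespace Pool.Agent.T9h7.RD

variable {n : ℕ}

/-- derivations of depth at most d -/
inductive Der (F : Finset (Finset (Fin n × Bool))) : ℕ → Finset (Fin n × Bool) → Prop
  | ax {C : Finset (Fin n × Bool)} (d : ℕ) (h : C ∈ F) : Der F d C
  | res {A B : Finset (Fin n × Bool)} {v : Fin n} {d : ℕ} (hA : Der F d A) (hB : Der F d B)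
      (h1 : (v, true) ∈ A) (h2 : (v, false) ∈ B) :
      Der F (d + 1) (A.erase (v, true) ∪ B.erase (v, false))

theorem Der.mono {F : Finset (Finset (Fin n × Bool))} {d e : ℕ} {C : Finset (Fin n × Bool)}
    (h : Der F d C) (hde : d ≤ e) : Der F e C := by
  induction h generalizing e with
  | ax d h => exact Der.ax e h
  | @res A B v d hA hB h1 h2 ihA ihB =>
    obtain ⟨e, rfl⟩ : ∃ e', e = e' + 1 := ⟨e - 1, by omega⟩
    exact Der.res (ihA (by omega)) (ihB (by omega)) h1 h2

open Classical in
theorem hasDepth_of_der {F : Finset (Finset (Fin n × Bool))} {d : ℕ} (h : Der F d ∅) :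
    HasDepth F d := by
  refine ⟨fun C => sInf {k | Der F k C}, {C | Der F d C}, h, ?_⟩
  intro C hC
  have hne : {k | Der F k C}.Nonempty := ⟨d, hC⟩
  have hmin : Der F (sInf {k | Der F k C}) C := Nat.sInf_mem hne
  refine ⟨Nat.sInf_le hC, ?_⟩
  generalize hk : sInf {k | Der F k C} = k at hmin
  have hkd : k ≤ d := hk ▸ Nat.sInf_le hC
  cases hmin with
  | ax _ h => exact Or.inl h
  | @res A B v k hA hB h1 h2 =>
    refine Or.inr ⟨A, hA.mono (by omega), B, hB.mono (by omega), v, h1, h2, rfl, ?_, ?_⟩
    · simp only []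
      rw [hk]
      exact lt_of_le_of_lt (Nat.sInf_le (show Der F k A from hA)) (Nat.lt_succ_self k)
    · simp only []
      rw [hk]
      exact lt_of_le_of_lt (Nat.sInf_le (show Der F k B from hB)) (Nat.lt_succ_self k)

/-- a clause falsified by the assignment has a derivation of depth at most d -/
def Win (F : Finset (Finset (Fin n × Bool))) (d : ℕ) (r : Finset (Fin n × Bool)) : Prop :=
  ∃ C : Finset (Fin n × Bool), C ⊆ r ∧ Der F d C

theorem Win.mono {F : Finset (Finset (Fin n × Bool))} {d e : ℕ} {r : Finset (Fin n × Bool)}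
    (h : Win F d r) (hde : d ≤ e) : Win F e r := by
  obtain ⟨C, h1, h2⟩ := h
  exact ⟨C, h1, h2.mono hde⟩

/-- query of a variable -/
theorem Win.query {F : Finset (Finset (Fin n × Bool))} {d : ℕ} {r : Finset (Fin n × Bool)}
    (v : Fin n) (h1 : Win F d (insert (v, true) r)) (h2 : Win F d (insert (v, false) r)) :
    Win F (d + 1) r := by
  obtain ⟨A, hA, dA⟩ := h1
  obtain ⟨B, hB, dB⟩ := h2
  by_cases hvA : (v, true) ∈ A
  · by_cases hvB : (v, false) ∈ B
    · refine ⟨_, ?_, Der.res dA dB hvA hvB⟩
      intro x hx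
      rw [Finset.mem_union, Finset.mem_erase, Finset.mem_erase] at hx
      rcases hx with ⟨h3, h4⟩ | ⟨h3, h4⟩
      · exact (Finset.mem_insert.mp (hA h4)).resolve_left h3
      · exact (Finset.mem_insert.mp (hB h4)).resolve_left h3
    · refine ⟨B, ?_, dB.mono (Nat.le_succ d)⟩
      intro x hx
      rcases Finset.mem_insert.mp (hB hx) with h | h
      · exact absurd (h ▸ hx) hvB
      · exact h
  · refine ⟨A, ?_, dA.mono (Nat.le_succ d)⟩
    intro x hx
    rcases Finset.mem_insert.mp (hA hx) with h | h
    · exact absurd (h ▸ hx) hvA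
    · exact h

/-- consistent partial assignments (the set of the falsified literals) -/
def Cons (r : Finset (Fin n × Bool)) : Prop :=
  ∀ v : Fin n, ¬ ((v, true) ∈ r ∧ (v, false) ∈ r)

/-- the clause is satisfied -/
def Sat (r C : Finset (Fin n × Bool)) : Prop := ∃ l ∈ C, (l.1, !l.2) ∈ r

theorem Sat.mono {r r' C : Finset (Fin n × Bool)} (h : Sat r C) (hr : r ⊆ r') : Sat r' C := by
  obtain ⟨l, h1, h2⟩ := h
  exact ⟨l, h1, hr h2⟩

theorem not_sat_false {r C : Finset (Fin n × Bool)} (hc : Cons r) (h : Sat r C) (hf : C ⊆ r) :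
    False := by
  obtain ⟨⟨v, b⟩, h1, h2⟩ := h
  have h3 := hf h1
  cases b
  · exact hc v ⟨h2, h3⟩
  · exact hc v ⟨h3, h2⟩

/-- the variable v is assigned -/
def Asg (r : Finset (Fin n × Bool)) (v : Fin n) : Prop := (v, true) ∈ r ∨ (v, false) ∈ r

theorem eval_vars {F : Finset (Finset (Fin n × Bool))} {d : ℕ} (Q : Finset (Fin n)) :
    ∀ r : Finset (Fin n × Bool), Cons r →
      (∀ r' : Finset (Fin n × Bool), Cons r' → r ⊆ r' → (∀ v ∈ Q, Asg r' v) → Win F d r') →
      Win F (d + Q.card) r := by
  induction Q using Finset.induction_on with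
  | empty =>
    intro r hr h
    simpa using h r hr (subset_refl r) (by simp)
  | @insert v Q hv ih =>
    intro r hr h
    rw [Finset.card_insert_of_notMem hv, ← add_assoc]
    by_cases ha : Asg r v
    · refine (ih r hr ?_).mono (Nat.le_succ _)
      intro r' h1 h2 h3
      refine h r' h1 h2 ?_
      intro u hu
      rcases Finset.mem_insert.mp hu with rfl | hu
      · rcases ha with ha | ha
        · exact Or.inl (h2 ha)
        · exact Or.inr (h2 ha)
      · exact h3 u hu
    · have hb : ∀ b : Bool, Cons (insert (v, b) r) := by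
        intro b u hu
        rw [Finset.mem_insert, Finset.mem_insert] at hu
        obtain ⟨h1, h2⟩ := hu
        rcases h1 with h1 | h1 <;> rcases h2 with h2 | h2
        · rw [Prod.mk.injEq] at h1 h2
          have := h1.2.trans h2.2.symm
          exact absurd this (by decide)
        · rw [Prod.mk.injEq] at h1
          exact ha (Or.inr (h1.1 ▸ h2))
        · rw [Prod.mk.injEq] at h2
          exact ha (Or.inl (h2.1 ▸ h1))
        · exact hr u ⟨h1, h2⟩
      have key : ∀ b : Bool, Win F (d + Q.card) (insert (v, b) r) := by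
        intro b
        refine ih _ (hb b) ?_
        intro r' h1 h2 h3
        refine h r' h1 ((Finset.subset_insert _ _).trans h2) ?_
        intro u hu
        rcases Finset.mem_insert.mp hu with rfl | hu
        · have h4 := h2 (Finset.mem_insert_self _ _)
          cases b
          · exact Or.inr h4
          · exact Or.inl h4
        · exact h3 u hu
      exact Win.query v (key true) (key false)

/-- evaluation of a set of clauses: afterwards every clause of the set is satisfied or falsified -/
theorem eval_clauses {F : Finset (Finset (Fin n × Bool))} {d : ℕ}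
    (S : Finset (Finset (Fin n × Bool))) (q : ℕ) (hq : ∑ C ∈ S, C.card ≤ q)
    (r : Finset (Fin n × Bool)) (hr : Cons r)
    (h : ∀ r' : Finset (Fin n × Bool), Cons r' → r ⊆ r' → (∀ C ∈ S, Sat r' C ∨ C ⊆ r') →
      Win F d r') : Win F (d + q) r := by
  classical
  have hcard : (S.biUnion (fun C => C.image Prod.fst)).card ≤ q := by
    refine le_trans Finset.card_biUnion_le (le_trans (Finset.sum_le_sum ?_) hq)
    intro C _
    exact Finset.card_image_le
  refine (eval_vars (F := F) (d := d) (S.biUnion (fun C => C.image Prod.fst)) r hr ?_).mono (by omega)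
  intro r' h1 h2 h3
  refine h r' h1 h2 ?_
  intro C hC
  by_cases hs : Sat r' C
  · exact Or.inl hs
  · refine Or.inr ?_
    intro l hl
    have h4 : Asg r' l.1 := h3 l.1 (Finset.mem_biUnion.mpr ⟨C, hC, Finset.mem_image_of_mem _ hl⟩)
    by_contra hcon
    apply hs
    refine ⟨l, hl, ?_⟩
    obtain ⟨v, b⟩ := l
    rcases h4 with h4 | h4 <;> cases b
    · exact h4
    · exact absurd h4 hcon
    · exact absurd h4 hcon
    · exact h4

/-- all clauses of the configuration are satisfied -/
def Good (M : ℕ → Finset (Finset (Fin n × Bool))) (r : Finset (Fin n × Bool)) (a : ℕ) : Prop :=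
  ∀ C ∈ M a, Sat r C

/-- some clause of the configuration is falsified -/
def Bad (M : ℕ → Finset (Finset (Fin n × Bool))) (r : Finset (Fin n × Bool)) (b : ℕ) : Prop :=
  ∃ C ∈ M b, C ⊆ r

theorem Good.mono {M : ℕ → Finset (Finset (Fin n × Bool))} {r r' : Finset (Fin n × Bool)} {a : ℕ}
    (h : Good M r a) (hr : r ⊆ r') : Good M r' a := fun C hC => (h C hC).mono hr

theorem Bad.mono {M : ℕ → Finset (Finset (Fin n × Bool))} {r r' : Finset (Fin n × Bool)} {b : ℕ}
    (h : Bad M r b) (hr : r ⊆ r') : Bad M r' b := by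
  obtain ⟨C, h1, h2⟩ := h
  exact ⟨C, h1, h2.trans hr⟩

/-- a true configuration next to a false one: a clause of F is falsified -/
theorem leaf {F : Finset (Finset (Fin n × Bool))} {τ : ℕ}
    {M : ℕ → Finset (Finset (Fin n × Bool))} (hM : IsRef F τ M) {r : Finset (Fin n × Bool)}
    (hr : Cons r) {a : ℕ} (ha : a < τ) (hg : Good M r a) (hb : Bad M r (a + 1)) : Win F 0 r := by
  obtain ⟨C, hC, hCr⟩ := hb
  rcases hM.2.2 a ha with ⟨D, hD, h⟩ | ⟨A, hA, B, hB, v, hv1, hv2, h⟩ | h
  · rw [h, Finset.mem_insert] at hC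
    rcases hC with rfl | hC
    · exact ⟨C, hCr, Der.ax 0 hD⟩
    · exact (not_sat_false hr (hg C hC) hCr).elim
  · rw [h, Finset.mem_insert] at hC
    rcases hC with rfl | hC
    · exfalso
      obtain ⟨⟨u, b⟩, h1, h2⟩ := hg A hA
      obtain ⟨⟨u', b'⟩, h1', h2'⟩ := hg B hB
      have e1 : (v, false) ∈ r := by
        by_cases he : (u, b) = (v, true)
        · rw [Prod.mk.injEq] at he
          obtain ⟨rfl, rfl⟩ := he
          exact h2
        · exfalso
          have h3 : (u, b) ∈ r := hCr (Finset.mem_union_left _ (Finset.mem_erase.mpr ⟨he, h1⟩))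
          cases b
          · exact hr u ⟨h2, h3⟩
          · exact hr u ⟨h3, h2⟩
      have e2 : (v, true) ∈ r := by
        by_cases he : (u', b') = (v, false)
        · rw [Prod.mk.injEq] at he
          obtain ⟨rfl, rfl⟩ := he
          exact h2'
        · exfalso
          have h3 : (u', b') ∈ r := hCr (Finset.mem_union_right _ (Finset.mem_erase.mpr ⟨he, h1'⟩))
          cases b'
          · exact hr u' ⟨h2', h3⟩
          · exact hr u' ⟨h3, h2'⟩
      exact hr v ⟨e2, e1⟩
    · exact (not_sat_false hr (hg C hC) hCr).elim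
  · exact (not_sat_false hr (hg C (h hC)) hCr).elim

/-- the trivial bound: n queries suffice -/
theorem win_all {F : Finset (Finset (Fin n × Bool))} {τ : ℕ}
    {M : ℕ → Finset (Finset (Fin n × Bool))} (hM : IsRef F τ M) : Win F n ∅ := by
  classical
  have h0 : Cons (∅ : Finset (Fin n × Bool)) := by intro v hv; simp at hv
  refine (eval_vars (F := F) (d := 0) Finset.univ ∅ h0 ?_).mono (by simp)
  intro r hr _ hall
  have hdec : ∀ C : Finset (Fin n × Bool), Sat r C ∨ C ⊆ r := by
    intro C
    by_cases hs : Sat r C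
    · exact Or.inl hs
    · refine Or.inr ?_
      intro l hl
      have h4 := hall l.1 (Finset.mem_univ _)
      by_contra hcon
      apply hs
      refine ⟨l, hl, ?_⟩
      obtain ⟨v, b⟩ := l
      rcases h4 with h4 | h4 <;> cases b
      · exact h4
      · exact absurd h4 hcon
      · exact absurd h4 hcon
      · exact h4
  have hgb : ∀ t, Good M r t ∨ Bad M r t := by
    intro t
    by_cases h : Good M r t
    · exact Or.inl h
    · right
      unfold Good at h
      push Not at h
      obtain ⟨C, hC, hns⟩ := h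
      exact ⟨C, hC, (hdec C).resolve_left hns⟩
  have hend : Bad M r τ := ⟨∅, hM.2.1, by simp⟩
  have hstart : Good M r 0 := by intro C hC; rw [hM.1] at hC; simp at hC
  obtain ⟨t, ht1, ht2⟩ : ∃ t, Bad M r t ∧ ∀ u < t, ¬ Bad M r u := by
    classical
    refine ⟨Nat.find ⟨τ, hend⟩, Nat.find_spec (⟨τ, hend⟩ : ∃ t, Bad M r t), ?_⟩
    intro u hu
    exact Nat.find_min _ hu
  have htτ : t ≤ τ := by
    by_contra hcon
    exact ht2 τ (by omega) hend
  cases t with
  | zero =>
    obtain ⟨C, hC, hCr⟩ := ht1
    exact (not_sat_false hr (hstart C hC) hCr).elim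
  | succ t =>
    exact leaf hM hr (by omega) ((hgb t).resolve_right (ht2 t (Nat.lt_succ_self t))) ht1

end Pool.Agent.T9h7.RD
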