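import Pool.Agent.T9h7.RD.Pot

set_option autoImplicit false

namespace Pool.Agent.T9h7.RD

/-- piece (BND). Take t = a + 1, a nonempty configuration strictly inside the gap. For C in M t:
2^(z C) / B^|C| = wt z C ≤ W ≤ 3 exp(ε nI), B = 2n+2, so z C ≤ (log 3 + w log B + ε nI)/log 2; with
i3: h nI log 2 ≤ s (log 3 + w log B) + s ε nI and s ε ≤ h/4. For nB: B^(-w) ≤ wt z C ≤ W ≤
3 exp(ε nI - ε nB). 2^nA ≤ T from i1 and b - a - 1 ≥ 1. -/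
def SBnd : Prop := ∀ (n : ℕ) (M : ℕ → Finset (Finset (Fin n × Bool))) (T h s w : ℕ) (ε : ℝ),
  0 < ε → 4 * (s : ℝ) * ε ≤ (h : ℝ) → (∀ t, 0 < t → t < T → (M t).Nonempty) →
  (∀ t ≤ T, ∑ C ∈ M t, C.card ≤ s) → (∀ t ≤ T, ∀ C ∈ M t, C.card ≤ w) →
  ∀ σ : St n, Inv M T h ε σ → σ.a + 2 ≤ σ.b →
    2 ^ σ.nA ≤ T ∧
    (h : ℝ) * σ.nI ≤ 3 * (s : ℝ) * ((w : ℝ) * Real.log (2 * (n : ℝ) + 2) + 2) ∧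
    ε * σ.nB ≤ ε * σ.nI + ((w : ℝ) * Real.log (2 * (n : ℝ) + 2) + 2)

/-- piece (NUM). E = Nat.sqrt (s/w) + 1 (about sqrt(s/w)), h = 4 s / E + 1, k = Nat.log 2 E + 1,
X = Nat.log 2 T + floor(3 s L / h), Y = floor(3 s L / h + E L), L = w log(2n+2) + 2: then
X/E + Y + 2 = O(sqrt(s w) log(n+2)) and 2 h E + s (k+1) = O(s log(n+2)). -/
def SNum : Prop := ∃ K : ℕ, ∀ n s w T : ℕ, 1 ≤ w → w ≤ s → s ≤ n → T ≤ (2 * n * s + 1) ^ s →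
  ∃ E h k X Y : ℕ, 1 ≤ E ∧ 1 ≤ h ∧ E ≤ 2 ^ k ∧ 4 * (s : ℝ) * (1 / (E : ℝ)) ≤ (h : ℝ) ∧
    (∀ a i b : ℕ, 2 ^ a ≤ T →
      (h : ℝ) * i ≤ 3 * (s : ℝ) * ((w : ℝ) * Real.log (2 * (n : ℝ) + 2) + 2) →
      (1 / (E : ℝ)) * b ≤ (1 / (E : ℝ)) * i + ((w : ℝ) * Real.log (2 * (n : ℝ) + 2) + 2) →
      a + i ≤ X ∧ b ≤ Y) ∧
    ((((X / E + Y + 2) * (2 * h * E + s * (k + 1)) : ℕ) : ℝ)) ^ 2
      ≤ (K : ℝ) * (s : ℝ) ^ 3 * (w : ℝ) * (Real.log ((n : ℝ) + 2)) ^ 4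

end Pool.Agent.T9h7.RD
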