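import Pool.Agent.T9h7.RD.Chain
import Pool.Agent.T9h7.RD.Spec2
import Pool.Agent.T9h77.RD.Min
import Pool.Agent.T9h77.RD.Bnd
import Pool.Agent.T9h69.RD.Cnt

/-!
Assembly: depth² ≤ K · space³ · width · log⁴.
-/

set_option autoImplicit false

namespace Pool.Agent.T9h7.RD

variable {n : ℕ}

theorem W_start (M : ℕ → Finset (Finset (Fin n × Bool))) (a b : ℕ) :
    W M (fun _ => 0) a b ≤ 3 := by
  classical
  have h1 : W M (fun _ => 0) a b ≤ ∑ C : Finset (Fin n × Bool), (1 / (2 * (n : ℝ) + 2)) ^ C.card := by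
    unfold W
    have e : ∀ C : Finset (Fin n × Bool), wt (fun _ => 0) C = (1 / (2 * (n : ℝ) + 2)) ^ C.card := by
      intro C
      unfold wt
      simp [one_div, inv_pow]
    simp only [e]
    refine Finset.sum_le_sum_of_subset_of_nonneg (Finset.subset_univ _) ?_
    intro C _ _
    positivity
  have h2 : ∑ C : Finset (Fin n × Bool), (1 / (2 * (n : ℝ) + 2)) ^ C.card
      = (1 / (2 * (n : ℝ) + 2) + 1) ^ (2 * n) := by
    have := Fintype.sum_pow_mul_eq_add_pow (Fin n × Bool) (1 / (2 * (n : ℝ) + 2)) 1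
    simp only [one_pow, mul_one] at this
    rw [this]
    congr 1
    simp [mul_comm]
  have h3 : (1 / (2 * (n : ℝ) + 2) + 1) ^ (2 * n) ≤ Real.exp 1 := by
    have h4 : (1 / (2 * (n : ℝ) + 2) + 1) ≤ Real.exp (1 / (2 * (n : ℝ) + 2)) :=
      Real.add_one_le_exp _
    calc (1 / (2 * (n : ℝ) + 2) + 1) ^ (2 * n)
        ≤ (Real.exp (1 / (2 * (n : ℝ) + 2))) ^ (2 * n) :=
          pow_le_pow_left₀ (by positivity) h4 _
      _ = Real.exp ((2 * n : ℕ) * (1 / (2 * (n : ℝ) + 2))) := by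
          rw [← Real.exp_nat_mul]
      _ ≤ Real.exp 1 := by
          apply Real.exp_le_exp.mpr
          push_cast
          rw [mul_one_div, div_le_one (by positivity)]
          linarith
  have h5 : Real.exp 1 < 3 := by
    have := Real.exp_one_lt_d9
    linarith
  linarith

theorem hasDepth_of_win {F : Finset (Finset (Fin n × Bool))} {d : ℕ} (h : Win F d ∅) :
    HasDepth F d := by
  obtain ⟨C, h1, h2⟩ := h
  have : C = ∅ := Finset.subset_empty.mp h1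
  subst this
  exact hasDepth_of_der h2

/-- main part: 1 ≤ w ≤ s ≤ n -/
theorem core (hnum : SNum) : ∃ K : ℕ, ∀ (n : ℕ) (F : Finset (Finset (Fin n × Bool))) (D s w τ : ℕ)
    (M : ℕ → Finset (Finset (Fin n × Bool))), IsLeast {d | HasDepth F d} D → IsRef F τ M →
    (∀ t ≤ τ, ∑ C ∈ M t, C.card ≤ s) → (∀ t ≤ τ, ∀ C ∈ M t, C.card ≤ w) →
    1 ≤ w → w ≤ s → s ≤ n →
    (D : ℝ) ^ 2 ≤ (K : ℝ) * (s : ℝ) ^ 3 * (w : ℝ) * (Real.log ((n : ℝ) + 2)) ^ 4 := by
  obtain ⟨K, hK⟩ := hnum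
  refine ⟨K, ?_⟩
  intro n F D s w τ M0 hD hM0 hs0 hw0 h1w hws hsn
  obtain ⟨T, M, hM, hs, hw, hinj, hemp⟩ :=
    Pool.Agent.T9h77.RD.sMin n F s w τ M0 hM0 hs0 hw0
  have hTpos : 0 < T := by
    rcases Nat.eq_zero_or_pos T with h | h
    · subst h
      have := hM.2.1
      rw [hM.1] at this
      simp at this
    · exact h
  have hne : ∀ t, 0 < t → t < T → (M t).Nonempty := by
    intro t h1 h2
    rw [Finset.nonempty_iff_ne_empty]
    intro h3
    have := hinj t h2.le 0 (Nat.zero_le _) (by rw [h3, hM.1])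
    omega
  have hT : T ≤ (2 * n * s + 1) ^ s :=
    Pool.Agent.T9h69.RD.sCnt n s T M (fun i hi j hj h => hinj i hi.le j hj.le h) hemp
      (fun i hi => hs i hi.le)
  obtain ⟨E, h, k, X, Y, hE, hh, hEk, hεh, hab, hfin⟩ := hK n s w T h1w hws hsn hT
  have hE0 : (0 : ℝ) < (E : ℝ) := by exact_mod_cast hE
  have hε0 : (0 : ℝ) < 1 / (E : ℝ) := by positivity
  have hε1 : 1 / (E : ℝ) ≤ 1 := by
    rw [div_le_one hE0]
    exact_mod_cast hE
  have hbd : ∀ σ : St n, Inv M T h (1 / (E : ℝ)) σ → σ.a + 2 ≤ σ.b →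
      σ.nA + σ.nI ≤ X ∧ σ.nB ≤ Y := by
    intro σ hσ hab'
    obtain ⟨b1, b2, b3⟩ := Pool.Agent.T9h77.RD.sBnd n M T h s w (1 / (E : ℝ)) hε0 hεh hne hs hw σ
      hσ hab'
    exact hab _ _ _ b1 b2 b3
  have hinit : Inv M T h (1 / (E : ℝ)) (⟨0, T, 0, 0, 0, fun _ => 0⟩ : St n) := by
    constructor
    · exact hTpos
    · exact le_refl _
    · simp only [Nat.sub_zero, pow_zero, mul_one]; omega
    · simp only [Nat.cast_zero, mul_zero, sub_zero, Real.exp_zero, mul_one]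
      exact W_start M 0 T
    · intro t _ _
      simp
  have hwin := game (F := F) (M := M) (T := T) (s := s) (h := h) (f := E) (k := k) (X := X)
    (Y := Y) (ε := 1 / (E : ℝ)) hM hs hh hε0 hε1 hne hE hEk hbd (X / E + Y + 2) ∅
    (⟨0, T, 0, 0, 0, fun _ => 0⟩ : St n) (by intro v hv; simp at hv) hinit
    (by intro C hC; simp only [hM.1] at hC; simp at hC)
    ⟨∅, hM.2.1, by simp⟩
    (by
      simp only [add_zero, Nat.sub_zero]
      omega)
  have hdep : HasDepth F ((X / E + Y + 2) * (2 * h * E + s * (k + 1))) := hasDepth_of_win hwin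
  have hDle : D ≤ (X / E + Y + 2) * (2 * h * E + s * (k + 1)) := hD.2 hdep
  have hDle' : (D : ℝ) ≤ (((X / E + Y + 2) * (2 * h * E + s * (k + 1)) : ℕ) : ℝ) := by
    exact_mod_cast hDle
  exact (pow_le_pow_left₀ (Nat.cast_nonneg D) hDle' 2).trans hfin

/-- narrow case w = 0 -/
theorem depth_zero {F : Finset (Finset (Fin n × Bool))} {τ : ℕ}
    {M0 : ℕ → Finset (Finset (Fin n × Bool))} (hM0 : IsRef F τ M0)
    (hw0 : ∀ t ≤ τ, ∀ C ∈ M0 t, C.card ≤ 0) : HasDepth F 0 := by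
  have hs0 : ∀ t ≤ τ, ∑ C ∈ M0 t, C.card ≤ 0 := by
    intro t ht
    rw [Nat.le_zero, Finset.sum_eq_zero_iff]
    intro C hC
    exact Nat.le_zero.mp (hw0 t ht C hC)
  obtain ⟨T, M, hM, hs, hw, hinj, hemp⟩ :=
    Pool.Agent.T9h77.RD.sMin n F 0 0 τ M0 hM0 hs0 hw0
  cases T with
  | zero =>
    have := hM.2.1
    rw [hM.1] at this
    simp at this
  | succ T =>
    have h1 := hM.2.1
    have h2 := hemp T (Nat.lt_succ_self T)
    rcases hM.2.2 T (Nat.lt_succ_self T) with ⟨C, hC, h⟩ | ⟨A, hA, B, hB, v, hv1, hv2, h⟩ | h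
    · rw [h, Finset.mem_insert] at h1
      rcases h1 with h1 | h1
      · exact hasDepth_of_der (Der.ax 0 (h1 ▸ hC))
      · exact absurd h1 h2
    · exfalso
      have := hw T (Nat.le_succ T) A hA
      have h3 : A = ∅ := Finset.card_eq_zero.mp (Nat.le_zero.mp this)
      rw [h3] at hv1
      simp at hv1
    · exact absurd (h h1) h2

/-- depth² ≤ K · space³ · width · log⁴ -/
theorem main (hnum : SNum) : ∃ K : ℕ, ∀ (n : ℕ) (F : Finset (Finset (Fin n × Bool)))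
    (D s w τ : ℕ) (M : ℕ → Finset (Finset (Fin n × Bool))),
    IsLeast {d | HasDepth F d} D → IsRef F τ M →
    (∀ t ≤ τ, ∑ C ∈ M t, C.card ≤ s) → (∀ t ≤ τ, ∀ C ∈ M t, C.card ≤ w) →
    (D : ℝ) ^ 2 ≤ (K : ℝ) * (s : ℝ) ^ 3 * (w : ℝ) * (Real.log ((n : ℝ) + 2)) ^ 4 := by
  obtain ⟨K, hK⟩ := core hnum
  refine ⟨K + 5, ?_⟩
  intro n F D s w τ M hD hM hs hw
  have hlog : (0.69 : ℝ) ≤ Real.log ((n : ℝ) + 2) := by
    have h1 : Real.log 2 ≤ Real.log ((n : ℝ) + 2) := by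
      apply Real.log_le_log (by norm_num)
      have : (0 : ℝ) ≤ (n : ℝ) := Nat.cast_nonneg n
      linarith
    have := Real.log_two_gt_d9
    linarith
  have hlog4 : (1 / 5 : ℝ) ≤ (Real.log ((n : ℝ) + 2)) ^ 4 := by
    calc (1 / 5 : ℝ) ≤ (0.69 : ℝ) ^ 4 := by norm_num
      _ ≤ _ := pow_le_pow_left₀ (by norm_num) hlog 4
  -- the case w ≤ s
  have key : ∀ w' : ℕ, w' ≤ s → (∀ t ≤ τ, ∀ C ∈ M t, C.card ≤ w') →
      (D : ℝ) ^ 2 ≤ ((K : ℝ) + 5) * (s : ℝ) ^ 3 * (w' : ℝ) * (Real.log ((n : ℝ) + 2)) ^ 4 := by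
    intro w' hws hw'
    rcases Nat.eq_zero_or_pos w' with h0 | hpos
    · subst h0
      have : D = 0 := Nat.le_zero.mp (hD.2 (depth_zero hM hw'))
      rw [this]
      simp
    · by_cases hsn : s ≤ n
      · refine (hK n F D s w' τ M hD hM hs hw' hpos hws hsn).trans ?_
        have : (0 : ℝ) ≤ (s : ℝ) ^ 3 * (w' : ℝ) * (Real.log ((n : ℝ) + 2)) ^ 4 := by positivity
        nlinarith
      · push Not at hsn
        have hDn : D ≤ n := hD.2 (hasDepth_of_win (win_all hM))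
        have hDs : (D : ℝ) ≤ (s : ℝ) := by exact_mod_cast (by omega : D ≤ s)
        have hs1 : (1 : ℝ) ≤ (s : ℝ) := by exact_mod_cast (by omega : 1 ≤ s)
        have hw1 : (1 : ℝ) ≤ (w' : ℝ) := by exact_mod_cast hpos
        have hK0 : (0 : ℝ) ≤ (K : ℝ) := Nat.cast_nonneg K
        have h1 : (D : ℝ) ^ 2 ≤ (s : ℝ) ^ 2 := pow_le_pow_left₀ (Nat.cast_nonneg D) hDs 2
        have h2 : (s : ℝ) ^ 2 ≤ (s : ℝ) ^ 3 := pow_le_pow_right₀ hs1 (by norm_num)
        have h3 : (s : ℝ) ^ 3 ≤ (s : ℝ) ^ 3 * (w' : ℝ) := le_mul_of_one_le_right (by positivity) hw1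
        have h4 : (s : ℝ) ^ 3 * (w' : ℝ) ≤
            ((K : ℝ) + 5) * (s : ℝ) ^ 3 * (w' : ℝ) * (Real.log ((n : ℝ) + 2)) ^ 4 := by
          have h5 : (1 : ℝ) ≤ ((K : ℝ) + 5) * (Real.log ((n : ℝ) + 2)) ^ 4 := by nlinarith
          have h6 : (0 : ℝ) ≤ (s : ℝ) ^ 3 * (w' : ℝ) := by positivity
          calc (s : ℝ) ^ 3 * (w' : ℝ) = (s : ℝ) ^ 3 * (w' : ℝ) * 1 := by ring
            _ ≤ (s : ℝ) ^ 3 * (w' : ℝ) * (((K : ℝ) + 5) * (Real.log ((n : ℝ) + 2)) ^ 4) :=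
                mul_le_mul_of_nonneg_left h5 h6
            _ = _ := by ring
        linarith
  push_cast
  by_cases hws : w ≤ s
  · exact key w hws hw
  · push Not at hws
    have h1 := key s (le_refl _) (fun t ht C hC =>
      (Finset.single_le_sum (f := fun C : Finset (Fin n × Bool) => C.card)
        (fun _ _ => Nat.zero_le _) hC).trans (hs t ht))
    refine h1.trans ?_
    have h2 : (s : ℝ) ≤ (w : ℝ) := by exact_mod_cast hws.le
    gcongr

end Pool.Agent.T9h7.RD
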