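import Pool.Agent.T9h7.RD.Game

/-!
The potential of a gap (a, b): the total weight of the clauses which occur strictly between a and b;
the splitting lemma.
-/

set_option autoImplicit false

namespace Pool.Agent.T9h7.RD

variable {n : ℕ}

/-- the clauses which occur strictly between the times a and b -/
def V (M : ℕ → Finset (Finset (Fin n × Bool))) (a b : ℕ) : Finset (Finset (Fin n × Bool)) :=
  (Finset.Ioo a b).biUnion M

/-- the weight of a clause -/
noncomputable def wt (z : Finset (Fin n × Bool) → ℕ) (C : Finset (Fin n × Bool)) : ℝ :=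
  (2 : ℝ) ^ (z C) / (2 * (n : ℝ) + 2) ^ C.card

/-- the weight of a gap -/
noncomputable def W (M : ℕ → Finset (Finset (Fin n × Bool))) (z : Finset (Fin n × Bool) → ℕ)
    (a b : ℕ) : ℝ := ∑ C ∈ V M a b, wt z C

theorem wt_pos (z : Finset (Fin n × Bool) → ℕ) (C : Finset (Fin n × Bool)) : 0 < wt z C := by
  unfold wt
  positivity

theorem V_mono (M : ℕ → Finset (Finset (Fin n × Bool))) {a b a' b' : ℕ} (h1 : a' ≤ a)
    (h2 : b ≤ b') : V M a b ⊆ V M a' b' := by
  apply Finset.biUnion_subset_biUnion_of_subset_left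
  intro t ht
  rw [Finset.mem_Ioo] at ht ⊢
  omega

theorem W_mono (M : ℕ → Finset (Finset (Fin n × Bool))) (z : Finset (Fin n × Bool) → ℕ)
    {a b a' b' : ℕ} (h1 : a' ≤ a) (h2 : b ≤ b') : W M z a b ≤ W M z a' b' :=
  Finset.sum_le_sum_of_subset_of_nonneg (V_mono M h1 h2) (fun C _ _ => (wt_pos z C).le)

/-- a gap together with its counters and weights -/
structure St (n : ℕ) where
  a : ℕ
  b : ℕ
  nA : ℕ
  nI : ℕ
  nB : ℕ
  z : Finset (Fin n × Bool) → ℕ

/-- the invariants -/
structure Inv (M : ℕ → Finset (Finset (Fin n × Bool))) (T h : ℕ) (ε : ℝ) (σ : St n) : Prop where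
  lt : σ.a < σ.b
  bT : σ.b ≤ T
  i1 : (σ.b - σ.a - 1) * 2 ^ σ.nA ≤ T
  i2 : W M σ.z σ.a σ.b ≤ 3 * Real.exp (ε * σ.nI - ε * σ.nB)
  i3 : ∀ t, σ.a < t → t < σ.b → h * σ.nI ≤ ∑ C ∈ M t, C.card * σ.z C

theorem split {M : ℕ → Finset (Finset (Fin n × Bool))} {T h : ℕ} {ε : ℝ} (hh : 1 ≤ h)
    (he0 : 0 < ε) (he1 : ε ≤ 1) (hne : ∀ t, 0 < t → t < T → (M t).Nonempty)
    (σ : St n) (hσ : Inv M T h ε σ) (hL : σ.a + 2 ≤ σ.b) :
    ∃ (Ea : Finset (Finset (Fin n × Bool))) (p q : ℕ), σ.a < p ∧ p < q ∧ q ≤ σ.b ∧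
      (∀ C ∈ Ea, ∃ t, C ∈ M t ∧ Inv M T h ε ⟨σ.a, t, σ.nA, σ.nI, σ.nB + 1, σ.z⟩) ∧
      ∑ C ∈ M p \ Ea, C.card ≤ h ∧
      (q < σ.b → ∑ C ∈ M q \ Ea, C.card ≤ h) ∧
      (q < σ.b → Inv M T h ε ⟨q, σ.b, σ.nA + 1, σ.nI, σ.nB, σ.z⟩) ∧
      Inv M T h ε ⟨σ.a, p, σ.nA + 1, σ.nI, σ.nB, σ.z⟩ ∧
      ∃ z', Inv M T h ε ⟨p, q, σ.nA, σ.nI + 1, σ.nB, z'⟩ := by
  classical
  obtain ⟨a, b, nA, nI, nB, z⟩ := σ
  obtain ⟨hlt, hbT, i1, i2, i3⟩ := hσ
  simp only at hlt hbT i1 i2 i3 hL ⊢
  have hW0 : 0 ≤ W M z a b := Finset.sum_nonneg (fun C _ => (wt_pos z C).le)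
  have hWpos : 0 < W M z a b := by
    obtain ⟨C, hC⟩ := hne (a + 1) (by omega) (by omega)
    refine Finset.sum_pos (fun C _ => wt_pos z C) ⟨C, ?_⟩
    exact Finset.mem_biUnion.mpr ⟨a + 1, Finset.mem_Ioo.mpr ⟨by omega, by omega⟩, hC⟩
  -- the early part
  have hex : ∃ e, a + 1 ≤ e ∧ e < b ∧ W M z a e ≤ (1 - ε) * W M z a b ∧
      (1 - ε) * W M z a b < W M z a (e + 1) := by
    have hset : ((Finset.Icc (a + 1) b).filter (fun t => W M z a t ≤ (1 - ε) * W M z a b)).Nonempty := by
      refine ⟨a + 1, Finset.mem_filter.mpr ⟨Finset.mem_Icc.mpr ⟨le_refl _, by omega⟩, ?_⟩⟩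
      have h0 : W M z a (a + 1) = 0 := by
        unfold W V
        have : Finset.Ioo a (a + 1) = ∅ := by
          ext t; simp only [Finset.mem_Ioo, Finset.notMem_empty, iff_false]; omega
        rw [this]
        simp
      rw [h0]
      exact mul_nonneg (by linarith) hW0
    obtain ⟨e, he, hmax⟩ := Finset.exists_max_image _ (fun t : ℕ => t) hset
    rw [Finset.mem_filter, Finset.mem_Icc] at he
    have heb : e < b := by
      by_contra hcon
      have : e = b := by omega
      subst this
      have := he.2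
      nlinarith
    refine ⟨e, he.1.1, heb, he.2, ?_⟩
    by_contra hcon
    push Not at hcon
    have := hmax (e + 1) (Finset.mem_filter.mpr ⟨Finset.mem_Icc.mpr ⟨by omega, by omega⟩, hcon⟩)
    omega
  obtain ⟨e, hae, heb, he1', he2'⟩ := hex
  -- good times
  set sz : ℕ → ℕ := fun c => ∑ C ∈ M c \ V M a (e + 1), C.card with hsz
  set mid : ℕ := (a + b) / 2 with hmid
  have hP : ((Finset.Icc (a + 1) mid).filter (fun c => sz c < h)).Nonempty := by
    refine ⟨a + 1, Finset.mem_filter.mpr ⟨Finset.mem_Icc.mpr ⟨le_refl _, by omega⟩, ?_⟩⟩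
    have h0 : sz (a + 1) = 0 := by
      rw [hsz]
      simp only []
      have : M (a + 1) \ V M a (e + 1) = ∅ := by
        rw [Finset.sdiff_eq_empty_iff_subset]
        intro C hC
        exact Finset.mem_biUnion.mpr ⟨a + 1, Finset.mem_Ioo.mpr ⟨by omega, by omega⟩, hC⟩
      rw [this]
      simp
    omega
  obtain ⟨p, hp, hpmax⟩ := Finset.exists_max_image _ (fun t : ℕ => t) hP
  rw [Finset.mem_filter, Finset.mem_Icc] at hp
  have hq : ∃ q, mid + 1 ≤ q ∧ q ≤ b ∧ (q < b → sz q < h) ∧ ∀ t, mid + 1 ≤ t → t < q → h ≤ sz t := by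
    by_cases hQ : ∃ c, mid + 1 ≤ c ∧ c < b ∧ sz c < h
    · refine ⟨Nat.find hQ, (Nat.find_spec hQ).1, (Nat.find_spec hQ).2.1.le,
        fun _ => (Nat.find_spec hQ).2.2, ?_⟩
      intro t h1 h2
      by_contra hcon
      have h3 := (Nat.find_spec hQ).2.1
      exact Nat.find_min hQ h2 ⟨h1, by omega, by omega⟩
    · refine ⟨b, by omega, le_refl _, fun h => absurd h (lt_irrefl _), ?_⟩
      intro t h1 h2
      by_contra hcon
      exact hQ ⟨t, h1, h2, by omega⟩
  obtain ⟨q, hq1, hq2, hq3, hq4⟩ := hq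
  have hbadt : ∀ t, p < t → t < q → h ≤ sz t := by
    intro t h1 h2
    by_cases h3 : t ≤ mid
    · by_contra hcon
      have := hpmax t (Finset.mem_filter.mpr ⟨Finset.mem_Icc.mpr ⟨by omega, h3⟩, by omega⟩)
      omega
    · exact hq4 t (by omega) h2
  have hi1' : ∀ L : ℕ, L ≤ b - a - 1 → L * 2 ^ nA ≤ T := fun L hL =>
    le_trans (Nat.mul_le_mul_right _ hL) i1
  have hi1'' : ∀ L : ℕ, 2 * L ≤ b - a - 1 → L * 2 ^ (nA + 1) ≤ T := by
    intro L hL
    have : L * 2 ^ (nA + 1) = (2 * L) * 2 ^ nA := by ring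
    rw [this]
    exact hi1' _ hL
  refine ⟨V M a (e + 1), p, q, by omega, by omega, hq2, ?_, hp.2.le, fun h => (hq3 h).le, ?_, ?_, ?_⟩
  · intro C hC
    unfold V at hC
    rw [Finset.mem_biUnion] at hC
    obtain ⟨t, ht, hCt⟩ := hC
    rw [Finset.mem_Ioo] at ht
    refine ⟨t, hCt, ?_⟩
    constructor
    · exact ht.1
    · simp only; omega
    · simp only
      exact hi1' _ (by omega)
    · simp only
      have h1 : W M z a t ≤ W M z a e := W_mono M z (le_refl _) (by omega)
      have h2 : (1 - ε) ≤ Real.exp (-ε) := by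
        have := Real.add_one_le_exp (-ε)
        linarith
      have h3 : Real.exp (ε * (nI : ℝ) - ε * ((nB + 1 : ℕ) : ℝ))
          = Real.exp (-ε) * Real.exp (ε * (nI : ℝ) - ε * (nB : ℝ)) := by
        rw [← Real.exp_add]
        congr 1
        push_cast
        ring
      rw [h3]
      calc W M z a t ≤ (1 - ε) * W M z a b := h1.trans he1'
        _ ≤ Real.exp (-ε) * W M z a b := mul_le_mul_of_nonneg_right h2 hW0
        _ ≤ Real.exp (-ε) * (3 * Real.exp (ε * (nI : ℝ) - ε * (nB : ℝ))) :=
            mul_le_mul_of_nonneg_left i2 (Real.exp_pos _).le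
        _ = 3 * (Real.exp (-ε) * Real.exp (ε * (nI : ℝ) - ε * (nB : ℝ))) := by ring
    · simp only
      intro u h1 h2
      exact i3 u h1 (by omega)
  · intro hqb
    constructor
    · exact hqb
    · exact hbT
    · simp only
      exact hi1'' _ (by omega)
    · simp only
      exact (W_mono M z (by omega) (le_refl _)).trans i2
    · simp only
      intro u h1 h2
      exact i3 u (by omega) h2
  · constructor
    · simp only; omega
    · simp only; omega
    · simp only
      exact hi1'' _ (by omega)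
    · simp only
      exact (W_mono M z (le_refl _) (by omega)).trans i2
    · simp only
      intro u h1 h2
      exact i3 u h1 (by omega)
  · refine ⟨fun C => if C ∈ V M a b \ V M a (e + 1) then z C + 1 else z C, ?_⟩
    constructor
    · simp only; omega
    · simp only; omega
    · simp only
      exact hi1' _ (by omega)
    · simp only
      have hsub : V M a (e + 1) ⊆ V M a b := V_mono M (le_refl _) (by omega)
      have h1 : W M (fun C => if C ∈ V M a b \ V M a (e + 1) then z C + 1 else z C) p q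
          ≤ W M (fun C => if C ∈ V M a b \ V M a (e + 1) then z C + 1 else z C) a b :=
        W_mono M _ (by omega) (by omega)
      have h2 : W M (fun C => if C ∈ V M a b \ V M a (e + 1) then z C + 1 else z C) a b
          = W M z a b + (W M z a b - W M z a (e + 1)) := by
        unfold W
        rw [← Finset.sum_sdiff hsub]
        have e1 : ∑ C ∈ V M a b \ V M a (e + 1),
            wt (fun C => if C ∈ V M a b \ V M a (e + 1) then z C + 1 else z C) C
            = 2 * ∑ C ∈ V M a b \ V M a (e + 1), wt z C := by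
          rw [Finset.mul_sum]
          refine Finset.sum_congr rfl ?_
          intro C hC
          unfold wt
          simp only [hC, if_true]
          rw [pow_succ]
          ring
        have e2 : ∑ C ∈ V M a (e + 1),
            wt (fun C => if C ∈ V M a b \ V M a (e + 1) then z C + 1 else z C) C
            = ∑ C ∈ V M a (e + 1), wt z C := by
          refine Finset.sum_congr rfl ?_
          intro C hC
          unfold wt
          have : C ∉ V M a b \ V M a (e + 1) := by
            rw [Finset.mem_sdiff]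
            exact fun h => h.2 hC
          simp only [this, if_false]
        have e3 : ∑ C ∈ V M a b, wt z C
            = ∑ C ∈ V M a b \ V M a (e + 1), wt z C + ∑ C ∈ V M a (e + 1), wt z C :=
          (Finset.sum_sdiff hsub).symm
        rw [e1, e2, e3]
        ring
      have h3 : (1 + ε) ≤ Real.exp ε := by
        have := Real.add_one_le_exp ε
        linarith
      have h4 : Real.exp (ε * ((nI + 1 : ℕ) : ℝ) - ε * (nB : ℝ))
          = Real.exp ε * Real.exp (ε * (nI : ℝ) - ε * (nB : ℝ)) := by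
        rw [← Real.exp_add]
        congr 1
        push_cast
        ring
      rw [h4]
      calc W M (fun C => if C ∈ V M a b \ V M a (e + 1) then z C + 1 else z C) p q
          ≤ W M z a b + (W M z a b - W M z a (e + 1)) := h1.trans h2.le
        _ ≤ (1 + ε) * W M z a b := by nlinarith
        _ ≤ Real.exp ε * W M z a b := mul_le_mul_of_nonneg_right h3 hW0
        _ ≤ Real.exp ε * (3 * Real.exp (ε * (nI : ℝ) - ε * (nB : ℝ))) :=
            mul_le_mul_of_nonneg_left i2 (Real.exp_pos _).le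
        _ = 3 * (Real.exp ε * Real.exp (ε * (nI : ℝ) - ε * (nB : ℝ))) := by ring
    · simp only
      intro u h1 h2
      have h3 := i3 u (by omega) (by omega)
      have h4 := hbadt u h1 h2
      have h5 : ∑ C ∈ M u, C.card * (if C ∈ V M a b \ V M a (e + 1) then z C + 1 else z C)
          = ∑ C ∈ M u, C.card * z C + ∑ C ∈ M u \ V M a (e + 1), C.card := by
        have e1 : ∀ C ∈ M u, C.card * (if C ∈ V M a b \ V M a (e + 1) then z C + 1 else z C)
            = C.card * z C + (if C ∉ V M a (e + 1) then C.card else 0) := by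
          intro C hC
          have hV : C ∈ V M a b :=
            Finset.mem_biUnion.mpr ⟨u, Finset.mem_Ioo.mpr ⟨by omega, by omega⟩, hC⟩
          by_cases hCe : C ∈ V M a (e + 1)
          · simp [hCe]
          · simp [hCe, hV, Nat.mul_succ]
        rw [Finset.sum_congr rfl e1, Finset.sum_add_distrib, ← Finset.sum_filter]
        congr 2
        ext C
        simp [Finset.mem_sdiff]
      rw [h5]
      have h6 : h * (nI + 1) = h * nI + h := by ring
      rw [h6]
      exact Nat.add_le_add h3 h4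

end Pool.Agent.T9h7.RD
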